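import Pool.Agent.COV.StmtsB

/-!
# Squad COV (MP_160b6c_nt), row GNX: nonconstant points are generic
-/

set_option autoImplicit false

namespace Pool.Agent.COV.H88X

open Polynomial Pool.Agent.KDT.Z

/-- The big field is algebraic over the polynomials in a non constant element. -/
theorem alg_adj {k U : Type} [Field k] [Field U] [Algebra k U] (t : U)
    (h : Algebra.IsAlgebraic (IntermediateField.adjoin k {t}) U) :
    Algebra.IsAlgebraic (Algebra.adjoin k {t}) U := by
  open IntermediateField.algebraAdjoinAdjoin in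
  exact (IsFractionRing.comap_isAlgebraic_iff (A := Algebra.adjoin k {t})
      (K := IntermediateField.adjoin k {t}) (C := U)).2 h

/-- an equation `P(δ, u) = 0` -/
theorem exP {k U : Type} [Field k] [Field U] [Algebra k U] (δ u : U)
    (h : Algebra.IsAlgebraic (IntermediateField.adjoin k {δ}) U) :
    ∃ P : k[X][X], P ≠ 0 ∧ P.eval₂ (aeval δ : k[X] →ₐ[k] U).toRingHom u = 0 := by
  obtain ⟨p, hp, hu⟩ := (alg_adj δ h).isAlgebraic u
  have hmem : δ ∈ Algebra.adjoin k {δ} := Algebra.subset_adjoin rfl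
  obtain ⟨π, hπ⟩ : ∃ π : k[X] →ₐ[k] Algebra.adjoin k {δ}, π = aeval ⟨δ, hmem⟩ := ⟨_, rfl⟩
  have hπ2 : ∀ F : k[X], ((π F : Algebra.adjoin k {δ}) : U) = aeval δ F := by
    intro F
    rw [hπ]
    exact (aeval_algHom_apply (Algebra.adjoin k {δ}).val ⟨δ, hmem⟩ F).symm
  have hsur : Function.Surjective π := by
    intro z
    have hz : (z : U) ∈ (aeval δ : k[X] →ₐ[k] U).range := by
      rw [← Algebra.adjoin_singleton_eq_range_aeval]
      exact z.2
    obtain ⟨F, hF⟩ := hz
    refine ⟨F, Subtype.ext ?_⟩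
    rw [hπ2]
    exact hF
  obtain ⟨P, hP⟩ := Polynomial.map_surjective π.toRingHom hsur p
  refine ⟨P, ?_, ?_⟩
  · rintro rfl
    rw [Polynomial.map_zero] at hP
    exact hp hP.symm
  · rw [← hP, aeval_def, eval₂_map] at hu
    rw [← hu]
    congr 1
    refine RingHom.ext fun F => ?_
    exact (hπ2 F).symm

/-- an equation `P(δ, u) = 0` with `P(0, X) ≠ 0` -/
theorem exP0 {k U : Type} [Field k] [Field U] [Algebra k U] (δ u : U) (hδ : δ ≠ 0)
    (h : Algebra.IsAlgebraic (IntermediateField.adjoin k {δ}) U) :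
    ∃ P : k[X][X], P.map (evalRingHom (0 : k)) ≠ 0 ∧
      P.eval₂ (aeval δ : k[X] →ₐ[k] U).toRingHom u = 0 := by
  obtain ⟨P, hP, hu⟩ := exP (k := k) δ u h
  have hX : ¬ IsUnit (C (X : k[X]) : k[X][X]) := by
    intro h
    exact not_isUnit_X (isUnit_C.1 h)
  obtain ⟨m, Q, hQ, hPQ⟩ := WfDvdMonoid.max_power_factor' hP hX
  refine ⟨Q, ?_, ?_⟩
  · intro h0
    apply hQ
    rw [C_dvd_iff_dvd_coeff]
    intro i
    rw [X_dvd_iff, coeff_zero_eq_eval_zero]
    have := congrArg (fun R => R.coeff i) h0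
    rw [coeff_map, coeff_zero] at this
    exact this
  · rw [hPQ, eval₂_mul, eval₂_pow, eval₂_C] at hu
    have : (aeval δ : k[X] →ₐ[k] U).toRingHom X = δ := aeval_X δ
    rw [this] at hu
    exact (mul_eq_zero.1 hu).resolve_left (pow_ne_zero _ hδ)

/-- the kernels are equal -/
theorem ker_le {k U : Type} [Field k] [Field U] [Algebra k U] (f : k[X]) (g : U[X])
    (env : Env k U f g) (q y : Fin 4 → U) (hv : VV k q y)
    (hy : ∃ i, y i ∉ (algebraMap k U).range) (G : MvPolynomial (Fin 4) k)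
    (hG : MvPolynomial.aeval y G = 0) : MvPolynomial.aeval q G = 0 := by
  by_contra hδ
  have := env.kc
  by_cases hk : MvPolynomial.aeval q G ∈ (algebraMap k U).range
  · obtain ⟨c, hc⟩ := hk
    have h1 : MvPolynomial.aeval q (G - MvPolynomial.C c) = 0 := by
      rw [map_sub, MvPolynomial.aeval_C, hc, sub_self]
    have h2 := hv _ h1
    rw [map_sub, MvPolynomial.aeval_C, hG, hc, zero_sub, neg_eq_zero] at h2
    exact hδ h2
  · obtain ⟨i, hi⟩ := hy
    obtain ⟨P, hP, hu⟩ := exP0 (k := k) (MvPolynomial.aeval q G) (q i) hδ (env.td _ hk)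
    have gen : ∀ x : Fin 4 → U, MvPolynomial.aeval x
        (P.eval₂ (aeval G : k[X] →ₐ[k] MvPolynomial (Fin 4) k).toRingHom (MvPolynomial.X i)) =
        P.eval₂ (aeval (MvPolynomial.aeval x G) : k[X] →ₐ[k] U).toRingHom (x i) := by
      intro x
      have := Polynomial.hom_eval₂ P
        (aeval G : k[X] →ₐ[k] MvPolynomial (Fin 4) k).toRingHom
        (MvPolynomial.aeval x : MvPolynomial (Fin 4) k →ₐ[k] U).toRingHom (MvPolynomial.X i)
      refine this.trans ?_
      have e1 : (MvPolynomial.aeval x : MvPolynomial (Fin 4) k →ₐ[k] U).toRingHom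
        (MvPolynomial.X i) = x i := MvPolynomial.aeval_X x i
      rw [e1]
      congr 1
      refine RingHom.ext fun F => ?_
      exact (aeval_algHom_apply (MvPolynomial.aeval x : MvPolynomial (Fin 4) k →ₐ[k] U) G F).symm
    have h1 := hv _ ((gen q).trans hu)
    rw [gen y, hG] at h1
    have h2 : aeval (y i) (P.map (evalRingHom (0 : k))) = 0 := by
      rw [aeval_def, eval₂_map, ← h1]
      congr 1
      refine RingHom.ext fun F => ?_
      show algebraMap k U (F.eval 0) = aeval (0 : U) F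
      rw [← map_zero (algebraMap k U), aeval_algebraMap_apply, coe_aeval_eq_eval]
    have halg : IsAlgebraic k (y i) := ⟨_, hP, h2⟩
    have hint : IsIntegral k (y i) := halg.isIntegral
    exact hi (minpoly.mem_range_of_degree_eq_one k (y i)
      (IsAlgClosed.degree_eq_one_of_irreducible k (minpoly.irreducible hint)))

/-- The big field is algebraic over every subalgebra which contains a non constant element. -/
theorem alg_of_mem {k U : Type} [Field k] [Field U] [Algebra k U] (A : Subalgebra k U) (t : U)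
    (ht : t ∈ A) (h : Algebra.IsAlgebraic (IntermediateField.adjoin k {t}) U) :
    Algebra.IsAlgebraic A U := by
  have h1 := alg_adj t h
  have hle : Algebra.adjoin k {t} ≤ A := Algebra.adjoin_le (by simpa using ht)
  let : Algebra (Algebra.adjoin k {t}) A := (Subalgebra.inclusion hle).toAlgebra
  have : IsScalarTower (Algebra.adjoin k {t}) A U := IsScalarTower.of_algebraMap_eq (fun x => rfl)
  exact h1.extendScalars (Subalgebra.inclusion_injective hle)

/-- GNX -/
theorem gnx : GnxStmt := by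
  intro k U _ _ _ f g env q y hv hy
  have := env.kc
  have := env.oc
  obtain ⟨ev, hev⟩ : ∃ ev : MvPolynomial (Fin 4) k →ₐ[k] U, ev = MvPolynomial.aeval q :=
    ⟨_, rfl⟩
  obtain ⟨ev', hev'⟩ : ∃ ev : MvPolynomial (Fin 4) k →ₐ[k] U, ev = MvPolynomial.aeval y :=
    ⟨_, rfl⟩
  have key : RingHom.ker ev = RingHom.ker ev' := by
    ext G
    rw [RingHom.mem_ker, RingHom.mem_ker, hev, hev']
    exact ⟨fun h => hv G h, fun h => ker_le f g env q y hv hy G h⟩
  have eq : ∀ i, ev (MvPolynomial.X i) = q i := fun i => by rw [hev]; simp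
  have ey : ∀ i, ev' (MvPolynomial.X i) = y i := fun i => by rw [hev']; simp
  -- the isomorphism of the ranges
  obtain ⟨e, he⟩ : ∃ e : ev.range ≃ₐ[k] ev'.range, ∀ G, e ⟨ev G, ⟨G, rfl⟩⟩ = ⟨ev' G, ⟨G, rfl⟩⟩ := by
    refine ⟨((Ideal.quotientKerEquivRange ev).symm.trans
      (Ideal.quotientEquivAlgOfEq k key)).trans (Ideal.quotientKerEquivRange ev'), ?_⟩
    intro G
    have h1 : (Ideal.quotientKerEquivRange ev).symm ⟨ev G, ⟨G, rfl⟩⟩ =
        Ideal.Quotient.mk (RingHom.ker ev) G := by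
      rw [AlgEquiv.symm_apply_eq]
      rfl
    rw [AlgEquiv.trans_apply, AlgEquiv.trans_apply, h1]
    rfl
  obtain ⟨i, hi⟩ := hy
  have hqi : q i ∉ (algebraMap k U).range := by
    rintro ⟨c, hc⟩
    have h1 : MvPolynomial.aeval q (MvPolynomial.X i - MvPolynomial.C c) = 0 := by
      rw [map_sub, MvPolynomial.aeval_C, MvPolynomial.aeval_X, hc, sub_self]
    have h2 := hv _ h1
    rw [map_sub, MvPolynomial.aeval_C, MvPolynomial.aeval_X, sub_eq_zero] at h2
    exact hi ⟨c, h2.symm⟩
  have alg : Algebra.IsAlgebraic ev.range U := alg_of_mem _ (q i) ⟨_, eq i⟩ (env.td _ hqi)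
  have alg' : Algebra.IsAlgebraic ev'.range U := alg_of_mem _ (y i) ⟨_, ey i⟩ (env.td _ hi)
  have : IsAlgClosure ev.range U := ⟨env.oc, alg⟩
  have : IsAlgClosure ev'.range U := ⟨env.oc, alg'⟩
  obtain ⟨τ, hτ⟩ : ∃ τ : U ≃+* U, ∀ x : ev.range, τ (algebraMap ev.range U x) =
      algebraMap ev'.range U (e x) :=
    ⟨IsAlgClosure.equivOfEquiv (R := ev'.range) (S := ev.range) U U e.toRingEquiv,
      fun x => IsAlgClosure.equivOfEquiv_algebraMap (R := ev'.range) (S := ev.range) U U
        e.toRingEquiv x⟩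
  have hτ2 : ∀ G, τ (ev G) = ev' G := by
    intro G
    have := hτ ⟨ev G, ⟨G, rfl⟩⟩
    rw [he] at this
    exact this
  refine ⟨AlgEquiv.ofRingEquiv (f := τ) (fun c => ?_), fun j => ?_⟩
  · have := hτ2 (algebraMap k _ c)
    rw [AlgHom.commutes, AlgHom.commutes] at this
    exact this
  · show τ (q j) = y j
    rw [← eq j, hτ2, ey j]

end Pool.Agent.COV.H88X
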