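import Pool.Agent.COV.StmtsA

set_option autoImplicit false

/-!
# Squad COV (MP_160b6c_nt), row GID: the identity
-/

namespace Pool.Agent.COV.H88

open Polynomial Pool.Agent.COV

theorem gid (h1 : GpdStmt) : GidStmt := by
  intro k _ _ δ F P Q V s j hV hE hW hj hs
  have hmul : ∀ A B : k[X], pd δ (A * B) = pd δ A * B + A * pd δ B :=
    fun A B => (h1 k δ A B).2.2.2.1
  have hsub : ∀ A B : k[X], pd δ (A - B) = pd δ A - pd δ B := fun A B => (h1 k δ A B).2.2.1
  have hder : ∀ A : k[X], pd δ (derivative A) = derivative (pd δ A) :=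
    fun A => (h1 k δ A A).2.2.2.2.1
  have hC : pd δ (C j) = 0 := (h1 k δ P P).2.2.2.2.2 j hj
  have ex := congrArg derivative hE
  have ed := congrArg (pd δ) hE
  have ew := congrArg (pd δ) hW
  unfold wr at hW ew
  simp only [pow_two, hmul, hsub, hder, hC, hs] at ed ew
  simp only [pow_two, derivative_mul, derivative_sub, derivative_C] at ex
  have hN : derivative (pd δ P * Q - P * pd δ Q) = derivative (pd δ P) * Q
      + pd δ P * derivative Q - (derivative P * pd δ Q + P * derivative (pd δ Q)) := by
    rw [derivative_sub, derivative_mul, derivative_mul]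
  rw [hN]
  apply mul_left_cancel₀ hV
  linear_combination (s * V) * ed - (pd δ P * Q - P * pd δ Q) * ex
    - ((Q * (P - Q) * (P - C j * Q) + P * Q * (P - C j * Q) + P * Q * (P - Q)) * pd δ P
      + (P * (P - Q) * (P - C j * Q) - P * Q * (P - C j * Q) - C j * (P * Q * (P - Q))) * pd δ Q)
        * hW
    + 2 * F * V ^ 2 * ew - 4 * (derivative P * pd δ Q - derivative Q * pd δ P) * hE

end Pool.Agent.COV.H88
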